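import Pool.Agent.Run7.h777.VW.Aff

/-! # Vinogradov's system with all variables in an arbitrary set of integers -/

set_option autoImplicit false

namespace Pool.Agent.Results.MP_e21eee_nt.ArbitrarySets

/-- The pairs of `s`-tuples of elements of `A` with equal sums of `j`-th powers for `j = 1, ..., k`. -/
def Sol (s k : ℕ) (A : Finset ℤ) : Finset ((Fin s → ℤ) × (Fin s → ℤ)) :=
  ((Fintype.piFinset fun _ : Fin s => A) ×ˢ (Fintype.piFinset fun _ : Fin s => A)).filter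
    (fun p => ∀ j : Fin k, ∑ i, p.1 i ^ ((j : ℕ) + 1) = ∑ i, p.2 i ^ ((j : ℕ) + 1))

/-- `A` is contained in an arithmetic progression with `N` terms. -/
def InProgression (N : ℕ) (A : Finset ℤ) : Prop :=
  ∃ c b : ℤ, b ≠ 0 ∧ ∀ z ∈ A, ∃ n : ℕ, 1 ≤ n ∧ n ≤ N ∧ z = c + b * n

open scoped Classical in
/-- Let `k < s`, and let `A` be any finite set of integers contained in an arithmetic progression
with `N` terms.

1. For every integer `q ≥ 1` the number of solutions with all variables in `A` in which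
   `(y_1, ..., y_s)` is not a permutation of `(x_1, ..., x_s)` is at most
   `C N^((s-k)(s+k+1)/(2q) + ε) |A|^(q + (1-1/q)(s-k-1))`.
2. If `|A| ≥ N^α` and `2(s-k)(s+k+1) < α (k^2 + 4(s-k) - 5)`, the number of all solutions in `A` is
   `s! |A|^s + O(|A|^(s-1))`.
3. If `|A| ≥ N^α` and `2(s-k)(s+k+1) < α ((k+1)^2 + 4(s-k) - 5)`, it is
   `s! |A|^s + O(|A|^(s-δ))` with some `δ > 0`.

All constants depend on `s`, `k`, `α`, `q`, `ε` only, not on `A` and `N`. -/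
theorem result (s k : ℕ) (hks : k < s) :
    (∀ q : ℕ, 1 ≤ q → ∀ ε : ℝ, 0 < ε → ∃ C : ℝ, ∀ N : ℕ, 1 ≤ N → ∀ A : Finset ℤ, A.Nonempty →
      InProgression N A →
      (((Sol s k A).filter (fun p => ¬ ∃ σ : Equiv.Perm (Fin s), p.2 = p.1 ∘ σ)).card : ℝ) ≤
        C * (N : ℝ) ^ (((s : ℝ) - k) * (s + k + 1) / (2 * q) + ε) *
          (A.card : ℝ) ^ ((q : ℝ) + (1 - 1 / (q : ℝ)) * ((s : ℝ) - k - 1))) ∧
    ∀ α : ℝ, 0 < α → α ≤ 1 →
      (2 * ((s : ℝ) - k) * (s + k + 1) < α * ((k : ℝ) ^ 2 + 4 * (s - k) - 5) →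
        ∃ C : ℝ, ∀ N : ℕ, 1 ≤ N → ∀ A : Finset ℤ, InProgression N A → (N : ℝ) ^ α ≤ A.card →
          |((Sol s k A).card : ℝ) - (s.factorial : ℝ) * (A.card : ℝ) ^ s| ≤
            C * (A.card : ℝ) ^ (s - 1)) ∧
      (2 * ((s : ℝ) - k) * (s + k + 1) < α * (((k : ℝ) + 1) ^ 2 + 4 * (s - k) - 5) →
        ∃ δ : ℝ, 0 < δ ∧ ∃ C : ℝ, ∀ N : ℕ, 1 ≤ N → ∀ A : Finset ℤ, InProgression N A →
          (N : ℝ) ^ α ≤ A.card →
          |((Sol s k A).card : ℝ) - (s.factorial : ℝ) * (A.card : ℝ) ^ s| ≤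
            C * (A.card : ℝ) ^ ((s : ℝ) - δ)) := by
  have hks' : (k : ℝ) + 1 ≤ s := by exact_mod_cast hks
  refine ⟨fun q hq ε hε => ?_, fun α hα hα1 => ⟨fun h => ?_, fun h => ?_⟩⟩
  · obtain ⟨C, -, hC⟩ := Pool.Agent.Run7.h777.VA.na_q s k q hks hq ε hε
    refine ⟨C, fun N hN A hA hAN => ?_⟩
    obtain ⟨c, b, hb, hz⟩ := hAN
    obtain ⟨A', h1, h2, -, h4⟩ := Pool.Agent.Run7.h777.VW.SZ_card s k N c b hb A hz
    have hA' : A'.Nonempty := by
      rw [← Finset.card_pos, h2, Finset.card_pos]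
      exact hA
    have h5 := hC N hN A' hA' h1
    rw [h2, h4] at h5
    have e : Pool.Agent.Run7.h777.VA.vol s k / q + ε =
        ((s : ℝ) - k) * (s + k + 1) / (2 * q) + ε := by
      unfold Pool.Agent.Run7.h777.VA.vol
      rw [div_div]
    rw [e] at h5
    exact h5
  · have hk : 0 < (k : ℝ) := by
      rcases Nat.eq_zero_or_pos k with h0 | h0
      · exfalso
        subst h0
        simp only [Nat.cast_zero] at h hks'
        nlinarith
      · exact_mod_cast h0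
    obtain ⟨C, hC⟩ := Pool.Agent.Run7.h777.VW.asymS s k hks α hα hα1 k hk le_rfl h
    refine ⟨C, fun N hN A hAN hNA => ?_⟩
    obtain ⟨c, b, hb, hz⟩ := hAN
    obtain ⟨A', h1, h2, h3, -⟩ := Pool.Agent.Run7.h777.VW.SZ_card s k N c b hb A hz
    have h5 := hC N hN A' h1 (by rw [h2]; exact hNA)
    have he : (k : ℝ) + ((s : ℝ) - k - 1) = ((s - 1 : ℕ) : ℝ) := by
      rw [Nat.cast_sub (by omega)]
      push_cast
      ring
    rw [he, Real.rpow_natCast, h2, h3] at h5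
    exact h5
  · obtain ⟨g, hg⟩ : ∃ g : ℝ, g = α * (((k : ℝ) + 1) ^ 2 + 4 * (s - k) - 5) -
      2 * ((s : ℝ) - k) * (s + k + 1) := ⟨_, rfl⟩
    have hg0 : 0 < g := by
      rw [hg]
      linarith
    have hk1 : (0 : ℝ) < (k : ℝ) + 1 := by positivity
    obtain ⟨δ, hδ⟩ : ∃ δ : ℝ, δ = min (1 / 2) (g / (4 * α * ((k : ℝ) + 1))) := ⟨_, rfl⟩
    have hδ0 : 0 < δ := by
      rw [hδ]
      exact lt_min (by norm_num) (by positivity)
    have hδ1 : δ ≤ 1 / 2 := by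
      rw [hδ]
      exact min_le_left _ _
    have hδ2 : 4 * α * ((k : ℝ) + 1) * δ ≤ g := by
      have h1 : δ ≤ g / (4 * α * ((k : ℝ) + 1)) := by
        rw [hδ]
        exact min_le_right _ _
      rw [le_div_iff₀ (by positivity)] at h1
      linarith
    have hk0 : (0 : ℝ) ≤ k := Nat.cast_nonneg k
    have hc0 : 0 < (k : ℝ) + 1 - δ := by linarith
    have hcond : 2 * ((s : ℝ) - k) * (s + k + 1) <
        α * (((k : ℝ) + 1 - δ) ^ 2 + 4 * (s - k) - 5) := by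
      have h1 : α * (((k : ℝ) + 1 - δ) ^ 2 + 4 * (s - k) - 5) =
          α * (((k : ℝ) + 1) ^ 2 + 4 * (s - k) - 5) - 2 * (α * ((k : ℝ) + 1) * δ) + α * δ ^ 2 := by
        ring
      have h2 : 0 < α * ((k : ℝ) + 1) * δ := by positivity
      have h3 : 0 ≤ α * δ ^ 2 := by positivity
      rw [h1]
      linarith
    refine ⟨δ, hδ0, ?_⟩
    obtain ⟨C, hC⟩ := Pool.Agent.Run7.h777.VW.asymS s k hks α hα hα1 ((k : ℝ) + 1 - δ) hc0
      (by linarith) hcond
    refine ⟨C, fun N hN A hAN hNA => ?_⟩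
    obtain ⟨c, b, hb, hz⟩ := hAN
    obtain ⟨A', h1, h2, h3, -⟩ := Pool.Agent.Run7.h777.VW.SZ_card s k N c b hb A hz
    have h5 := hC N hN A' h1 (by rw [h2]; exact hNA)
    have he : (k : ℝ) + 1 - δ + ((s : ℝ) - k - 1) = (s : ℝ) - δ := by ring
    rw [he, h2, h3] at h5
    exact h5

end Pool.Agent.Results.MP_e21eee_nt.ArbitrarySets
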